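import Pool.Agent.Q35.MM.Stm

/-!
# Project MM (helper35), job MM-CR: small linear relations (helper144)
-/

set_option autoImplicit false

namespace Q144.MM

open Pool.Agent.Q35.MM Finset Module Matrix

variable {K : Type} [Field K]

theorem det_S1 {κ : Type} [Fintype κ] [DecidableEq κ] (N : Matrix κ κ K) (B : ℕ)
    (h : ∀ i j, N i j ∈ S1 K B) :
    N.det ∈ S1 K ((Fintype.card κ).factorial * B ^ Fintype.card κ) := by
  refine ⟨IsIntegral.det fun i j => (h i j).1, fun φ => ?_⟩
  have h1 := Matrix.det_le (A := N) (abv := (NormedField.toAbsoluteValue ℂ).comp φ.injective)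
    (x := (B : ℝ)) fun i j => (h i j).2 φ
  rw [nsmul_eq_mul] at h1
  push_cast
  exact h1

theorem S1_mono {a b : ℕ} (h : a ≤ b) {x : K} (hx : x ∈ S1 K a) : x ∈ S1 K b :=
  ⟨hx.1, fun φ => (hx.2 φ).trans (by exact_mod_cast h)⟩

theorem S1_neg {b : ℕ} {x : K} (hx : x ∈ S1 K b) : -x ∈ S1 K b :=
  ⟨hx.1.neg, fun φ => by rw [map_neg, norm_neg]; exact hx.2 φ⟩

theorem S1_zero {b : ℕ} : (0 : K) ∈ S1 K b :=
  ⟨isIntegral_zero, fun φ => by rw [map_zero, norm_zero]; exact Nat.cast_nonneg b⟩

/-- JOB MM-CR. -/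
theorem cr : S_CR := by
  intro K _ _ k
  refine ⟨k.factorial, Nat.factorial_pos _, ?_⟩
  intro m B e hB he w hw hfr
  classical
  obtain ⟨κ, a, hainj, haspan, hali⟩ := exists_linearIndependent' K w
  have hfin : Finite κ := Finite.of_injective a hainj
  have := Fintype.ofFinite κ
  have hκ : Fintype.card κ = k - e := by
    have h1 := finrank_span_eq_card hali
    rw [haspan] at h1
    omega
  set W : Matrix κ (Fin m) K := fun s x => w (a s) x with hW
  have hrk : W.rank = Fintype.card κ := LinearIndependent.rank_matrix hali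
  obtain ⟨κ', b, hbinj, hbspan, hbli⟩ := exists_linearIndependent' K W.col
  have hfin' : Finite κ' := Finite.of_injective b hbinj
  have := Fintype.ofFinite κ'
  have hκ' : Fintype.card κ = Fintype.card κ' := by
    have h1 := finrank_span_eq_card hbli
    rw [hbspan, ← Matrix.rank_eq_finrank_span_cols, hrk] at h1
    exact h1
  let f : κ ≃ κ' := Fintype.equivOfCardEq hκ'
  set M : Matrix κ κ K := fun s s' => w (a s) (b (f s')) with hM
  have hMu : IsUnit M := by
    rw [← Matrix.linearIndependent_cols_iff_isUnit]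
    exact hbli.comp f f.injective
  set A : Matrix κ κ K := Mᵀ with hA
  have hdet : A.det ≠ 0 := by
    rw [hA, Matrix.det_transpose]
    exact ((Matrix.isUnit_iff_isUnit_det M).mp hMu).ne_zero
  obtain ⟨t₀, ht₀⟩ : ∃ t₀, ∀ s, a s ≠ t₀ := by
    by_contra h
    push Not at h
    have h1 := Fintype.card_le_of_surjective a h
    rw [Fintype.card_fin, hκ] at h1
    omega
  have hmem : w t₀ ∈ Submodule.span K (Set.range (w ∘ a)) := by
    rw [haspan]
    exact Submodule.subset_span ⟨t₀, rfl⟩
  rw [Submodule.mem_span_range_iff_exists_fun] at hmem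
  obtain ⟨c, hc⟩ := hmem
  set v : κ → K := fun s' => w t₀ (b (f s')) with hv
  have hAc : A *ᵥ c = v := by
    funext s'
    have h1 := congrFun hc (b (f s'))
    rw [Finset.sum_apply] at h1
    rw [hv]
    simp only
    rw [← h1]
    unfold Matrix.mulVec dotProduct
    refine Finset.sum_congr rfl fun s _ => ?_
    show w (a s) (b (f s')) * c s = c s * w (a s) (b (f s'))
    ring
  have hcr : ∀ s, A.cramer v s = A.det * c s := by
    intro s
    rw [Matrix.cramer_eq_adjugate_mulVec, ← hAc, Matrix.mulVec_mulVec, Matrix.adjugate_mul,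
      Matrix.smul_mulVec, Matrix.one_mulVec]
    rfl
  have hbd : (Fintype.card κ).factorial * B ^ Fintype.card κ ≤ k.factorial * B ^ (k - e) := by
    rw [hκ]
    exact Nat.mul_le_mul_right _ (Nat.factorial_le (Nat.sub_le k e))
  have hwS : ∀ t x, w t x ∈ S1 K B := fun t x => (mem_bx.mp (hw t)) x
  have hD : A.det ∈ S1 K (k.factorial * B ^ (k - e)) :=
    S1_mono hbd (det_S1 A B fun i j => hwS _ _)
  have hCr : ∀ s, A.cramer v s ∈ S1 K (k.factorial * B ^ (k - e)) := by
    intro s
    rw [Matrix.cramer_apply]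
    refine S1_mono hbd (det_S1 _ B fun i j => ?_)
    rw [Matrix.updateCol_apply]
    split_ifs
    · exact hwS _ _
    · exact hwS _ _
  set μ : Fin k → K := fun t => if h : ∃ s, a s = t then -(A.cramer v h.choose) else
    if t = t₀ then A.det else 0 with hμ
  have hμa : ∀ s, μ (a s) = -(A.cramer v s) := by
    intro s
    have h : ∃ s', a s' = a s := ⟨s, rfl⟩
    rw [hμ]
    simp only
    rw [dif_pos h]
    have := hainj h.choose_spec
    rw [this]
  have hμ0 : μ t₀ = A.det := by
    rw [hμ]
    simp only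
    rw [dif_neg (by rintro ⟨s, hs⟩; exact ht₀ s hs)]
    exact if_pos trivial
  have hμn : ∀ t, (∀ s, a s ≠ t) → t ≠ t₀ → μ t = 0 := by
    intro t h1 h2
    rw [hμ]
    simp only
    rw [dif_neg (by rintro ⟨s, hs⟩; exact h1 s hs), if_neg h2]
  refine ⟨μ, ?_, ?_, ?_⟩
  · intro h
    apply hdet
    rw [← hμ0, h]
    rfl
  · rw [mem_bx]
    intro t
    by_cases h : ∃ s, a s = t
    · obtain ⟨s, rfl⟩ := h
      rw [hμa]
      exact S1_neg (hCr s)
    · by_cases h2 : t = t₀
      · rw [h2, hμ0]
        exact hD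
      · rw [hμn t (fun s hs => h ⟨s, hs⟩) h2]
        exact S1_zero
  · have hsub : insert t₀ (univ.image a) ⊆ (univ : Finset (Fin k)) := Finset.subset_univ _
    rw [← Finset.sum_subset hsub]
    · rw [Finset.sum_insert, Finset.sum_image fun x _ y _ h => hainj h, hμ0, ← hc, Finset.smul_sum,
        ← Finset.sum_add_distrib]
      · refine Finset.sum_eq_zero fun s _ => ?_
        rw [hμa, hcr, Function.comp_apply, smul_smul, neg_smul, add_neg_cancel]
      · rw [Finset.mem_image]
        rintro ⟨s, _, hs⟩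
        exact ht₀ s hs
    · intro t _ ht
      rw [Finset.mem_insert, Finset.mem_image, not_or] at ht
      rw [hμn t (fun s hs => ht.2 ⟨s, mem_univ _, hs⟩) ht.1, zero_smul]

end Q144.MM
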