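import Pool.Agent.Q35.MM.Stm

/-!
# Project MM (helper35), job MM-DB: points of a subspace in boxes (helper144)

The packing argument is the one of `Pool/Agent/H548/BL/Pack.lean`, for a group with an embedding
into a real normed space.
-/

set_option autoImplicit false

namespace Q144.MM

open Pool.Agent.Q35.MM Finset MeasureTheory Metric Module
open scoped ENNReal Topology

/-- Separated points in a ball of a real normed space of finite dimension. -/
theorem sep_card {E : Type*} [NormedAddCommGroup E] [NormedSpace ℝ E] [FiniteDimensional ℝ E]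
    (s : Finset E) (R δ : ℝ) (hδ : 0 < δ) (hR : 0 ≤ R) (hs : ∀ c ∈ s, ‖c‖ ≤ R)
    (h : ∀ c ∈ s, ∀ d ∈ s, c ≠ d → δ ≤ ‖c - d‖) :
    (s.card : ℝ) ≤ (2 * R / δ + 1) ^ finrank ℝ E := by
  borelize E
  let μ : Measure E := Measure.addHaar
  have hδ2 : 0 < δ / 2 := by positivity
  have ρpos : 0 < R + δ / 2 := by positivity
  set A := ⋃ c ∈ s, ball (c : E) (δ / 2) with hA
  have D : Set.Pairwise (s : Set E) (Function.onFun Disjoint fun c => ball (c : E) (δ / 2)) := by
    rintro c hc d hd hcd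
    apply ball_disjoint_ball
    rw [dist_eq_norm]
    have := h c hc d hd hcd
    linarith
  have A_subset : A ⊆ ball (0 : E) (R + δ / 2) := by
    refine Set.iUnion₂_subset fun x hx => ?_
    apply ball_subset_ball'
    rw [dist_zero_right]
    have := hs x hx
    linarith
  have I : (s.card : ℝ≥0∞) * ENNReal.ofReal ((δ / 2) ^ finrank ℝ E) * μ (ball 0 1) ≤
      ENNReal.ofReal ((R + δ / 2) ^ finrank ℝ E) * μ (ball 0 1) :=
    calc
      (s.card : ℝ≥0∞) * ENNReal.ofReal ((δ / 2) ^ finrank ℝ E) * μ (ball 0 1) = μ A := by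
        rw [hA, measure_biUnion_finset D fun c _ => measurableSet_ball]
        simp only [μ.addHaar_ball_of_pos _ hδ2]
        simp only [Finset.sum_const, nsmul_eq_mul, mul_assoc]
      _ ≤ μ (ball (0 : E) (R + δ / 2)) := measure_mono A_subset
      _ = ENNReal.ofReal ((R + δ / 2) ^ finrank ℝ E) * μ (ball 0 1) := by
        simp only [μ.addHaar_ball_of_pos _ ρpos]
  have J : (s.card : ℝ≥0∞) * ENNReal.ofReal ((δ / 2) ^ finrank ℝ E) ≤
      ENNReal.ofReal ((R + δ / 2) ^ finrank ℝ E) :=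
    (ENNReal.mul_le_mul_iff_left (measure_ball_pos _ _ zero_lt_one).ne' measure_ball_lt_top.ne).1 I
  have K : (s.card : ℝ) * (δ / 2) ^ finrank ℝ E ≤ (R + δ / 2) ^ finrank ℝ E := by
    have := ENNReal.toReal_le_of_le_ofReal (pow_nonneg ρpos.le _) J
    rwa [ENNReal.toReal_mul, ENNReal.toReal_natCast, ENNReal.toReal_ofReal (by positivity)] at this
  have e : (2 * R / δ + 1) = (R + δ / 2) / (δ / 2) := by
    field_simp
  rw [e, div_pow, le_div_iff₀ (by positivity)]
  exact K

/-- The comparison of the numbers of points of a group in two balls. -/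
theorem doubling {G E : Type*} [AddCommGroup G] [NormedAddCommGroup E] [NormedSpace ℝ E]
    (Ψ : G →+ E) (hinj : Function.Injective Ψ) (Λ : AddSubgroup G) (V : Submodule ℝ E)
    [FiniteDimensional ℝ V] {b : ℕ}
    (hV : finrank ℝ V ≤ b) (hΛ : ∀ v ∈ Λ, Ψ v ∈ V) (B ρ : ℝ) (hρ0 : 0 < ρ) (hB : ρ ≤ B)
    (GB Sm : Finset G) (hG : ∀ v, v ∈ GB ↔ v ∈ Λ ∧ ‖Ψ v‖ ≤ B)
    (hSm : ∀ v, v ∈ Sm ↔ v ∈ Λ ∧ ‖Ψ v‖ ≤ ρ) :
    (GB.card : ℝ) ≤ (3 * B / ρ) ^ b * (Sm.card : ℝ) := by
  classical
  have hB0 : 0 < B := lt_of_lt_of_le hρ0 hB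
  set Q : Finset (Finset G) := GB.powerset.filter
    fun P => ∀ c ∈ P, ∀ d ∈ P, c ≠ d → ρ ≤ ‖Ψ (c - d)‖ with hQ
  have hQne : Q.Nonempty := ⟨∅, by rw [hQ, mem_filter]; simp⟩
  obtain ⟨P, hP, hmax⟩ := Finset.exists_max_image Q Finset.card hQne
  rw [hQ, mem_filter, mem_powerset] at hP
  obtain ⟨hPG, hPs⟩ := hP
  have hcov : GB ⊆ P.biUnion fun p => Sm.image fun u => p + u := by
    intro v hv
    rw [mem_biUnion]
    by_contra hcon
    push Not at hcon
    have hfar : ∀ p ∈ P, ρ ≤ ‖Ψ (v - p)‖ := by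
      intro p hp
      by_contra hlt
      apply hcon p hp
      rw [mem_image]
      refine ⟨v - p, ?_, by abel⟩
      rw [hSm]
      exact ⟨Λ.sub_mem ((hG v).mp hv).1 ((hG p).mp (hPG hp)).1, (not_le.mp hlt).le⟩
    have hvP : v ∉ P := by
      intro h
      have h1 := hfar v h
      rw [sub_self, map_zero, norm_zero] at h1
      linarith
    have h1 : insert v P ∈ Q := by
      rw [hQ, mem_filter, mem_powerset]
      refine ⟨insert_subset hv hPG, ?_⟩
      intro c hc d hd hcd
      rw [mem_insert] at hc hd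
      rcases hc with rfl | hc <;> rcases hd with rfl | hd
      · exact absurd rfl hcd
      · exact hfar d hd
      · have h3 := hfar c hc
        rwa [← neg_sub, map_neg, norm_neg]
      · exact hPs c hc d hd hcd
    have h2 := hmax _ h1
    rw [card_insert_of_notMem hvP] at h2
    omega
  have hPc : (P.card : ℝ) ≤ (3 * B / ρ) ^ b := by
    have hmem : ∀ p ∈ P, Ψ p ∈ V := fun p hp => hΛ p ((hG p).mp (hPG hp)).1
    set s : Finset V := P.attach.image fun p => ⟨Ψ p.1, hmem p.1 p.2⟩ with hs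
    have hsc : s.card = P.card := by
      rw [hs, card_image_of_injective, card_attach]
      intro p q hpq
      simp only [Subtype.mk.injEq] at hpq
      exact Subtype.ext (hinj hpq)
    have h1 := sep_card s B ρ hρ0 hB0.le (by
      intro c hc
      rw [hs, mem_image] at hc
      obtain ⟨p, -, rfl⟩ := hc
      rw [Submodule.coe_norm]
      exact ((hG p.1).mp (hPG p.2)).2) (by
      intro c hc d hd hcd
      rw [hs, mem_image] at hc hd
      obtain ⟨p, -, rfl⟩ := hc
      obtain ⟨q, -, rfl⟩ := hd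
      rw [Submodule.coe_norm]
      show ρ ≤ ‖Ψ p.1 - Ψ q.1‖
      rw [← map_sub]
      refine hPs p.1 p.2 q.1 q.2 ?_
      intro h
      apply hcd
      simp [h])
    rw [hsc] at h1
    have hq : (1 : ℝ) ≤ B / ρ := by
      rw [le_div_iff₀ hρ0, one_mul]
      exact hB
    calc (P.card : ℝ) ≤ (2 * B / ρ + 1) ^ finrank ℝ V := h1
      _ ≤ (3 * B / ρ) ^ finrank ℝ V := by
          gcongr
          have : (3 * B / ρ : ℝ) = 2 * B / ρ + B / ρ := by ring
          rw [this]
          linarith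
      _ ≤ (3 * B / ρ) ^ b := by
          apply pow_le_pow_right₀ _ hV
          have : (3 * B / ρ : ℝ) = 3 * (B / ρ) := by ring
          rw [this]
          linarith
  calc (GB.card : ℝ) ≤ ((P.biUnion fun p => Sm.image fun u => p + u).card : ℝ) := by
        exact_mod_cast card_le_card hcov
    _ ≤ ((∑ p ∈ P, (Sm.image fun u => p + u).card : ℕ) : ℝ) := by
        exact_mod_cast card_biUnion_le
    _ ≤ ((∑ p ∈ P, Sm.card : ℕ) : ℝ) := by
        exact_mod_cast Finset.sum_le_sum fun p _ => card_image_le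
    _ = (P.card : ℝ) * Sm.card := by
        rw [Finset.sum_const, smul_eq_mul]
        push_cast
        ring
    _ ≤ (3 * B / ρ) ^ b * (Sm.card : ℝ) := by
        gcongr

variable {K : Type} [Field K] [NumberField K]

/-- All conjugates of a vector. -/
noncomputable def psi (K : Type) [Field K] [NumberField K] (m : ℕ) :
    (Fin m → K) →+ ((K →+* ℂ) → Fin m → ℂ) where
  toFun x := fun φ a => φ (x a)
  map_zero' := by
    funext φ a
    exact map_zero φ
  map_add' x y := by
    funext φ a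
    exact map_add φ _ _

theorem psi_apply {m : ℕ} (x : Fin m → K) (φ : K →+* ℂ) (a : Fin m) : psi K m x φ a = φ (x a) := rfl

theorem psi_inj (m : ℕ) : Function.Injective (psi K m) := by
  intro x y h
  funext a
  obtain ⟨φ⟩ : Nonempty (K →+* ℂ) := inferInstance
  have h1 := congrFun (congrFun h φ) a
  rw [psi_apply, psi_apply] at h1
  exact φ.injective h1

theorem psi_rat {m : ℕ} (q : ℚ) (x : Fin m → K) : psi K m (q • x) = (q : ℝ) • psi K m x := by
  funext φ a
  rw [psi_apply, Pi.smul_apply, Pi.smul_apply, Pi.smul_apply, psi_apply, Algebra.smul_def, map_mul,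
    eq_ratCast, map_ratCast, Complex.real_smul]
  push_cast
  rfl

theorem psi_norm {m : ℕ} (x : Fin m → K) (b : ℝ) (hb : 0 ≤ b) :
    ‖psi K m x‖ ≤ b ↔ ∀ a, ∀ φ : K →+* ℂ, ‖φ (x a)‖ ≤ b := by
  rw [pi_norm_le_iff_of_nonneg hb]
  constructor
  · intro h a φ
    have h1 := h φ
    rw [pi_norm_le_iff_of_nonneg hb] at h1
    exact h1 a
  · intro h φ
    rw [pi_norm_le_iff_of_nonneg hb]
    intro a
    exact h a φ

/-- the integral vectors of a subspace -/
def lam {m : ℕ} (V : Submodule K (Fin m → K)) : AddSubgroup (Fin m → K) where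
  carrier := {x | x ∈ V ∧ ∀ a, IsIntegral ℤ (x a)}
  zero_mem' := ⟨V.zero_mem, fun _ => isIntegral_zero⟩
  add_mem' := fun hx hy => ⟨V.add_mem hx.1 hy.1, fun a => (hx.2 a).add (hy.2 a)⟩
  neg_mem' := fun hx => ⟨V.neg_mem hx.1, fun a => (hx.2 a).neg⟩

/-- JOB MM-DB. -/
theorem db : S_DB := by
  intro K _ _ m V r hr C ρ hρ hρC _
  set n : ℕ := finrank ℚ V with hn
  have hnr : n ≤ dg K * r := by
    rw [hn, ← Module.finrank_mul_finrank ℚ K V]
    exact Nat.mul_le_mul_left _ hr
  have : Module.Finite ℚ V := Module.Finite.trans K V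
  let bs : Basis (Fin n) ℚ V := Module.finBasis ℚ V
  set E : Submodule ℝ ((K →+* ℂ) → Fin m → ℂ) :=
    Submodule.span ℝ (Set.range fun i : Fin n => psi K m (bs i : Fin m → K)) with hE
  have hEf : finrank ℝ E ≤ dg K * r := by
    refine le_trans ?_ hnr
    have := finrank_range_le_card (R := ℝ) (fun i : Fin n => psi K m (bs i : Fin m → K))
    rwa [Fintype.card_fin] at this
  have hmemE : ∀ x ∈ V, psi K m x ∈ E := by
    intro x hx
    have h1 : x = ∑ i, (bs.repr ⟨x, hx⟩ i) • (bs i : Fin m → K) := by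
      have h2 := bs.sum_repr ⟨x, hx⟩
      have h3 : ((∑ i, (bs.repr ⟨x, hx⟩ i) • bs i : V) : Fin m → K) = x := congrArg Subtype.val h2
      refine h3.symm.trans ?_
      rw [Submodule.coe_sum]
      rfl
    rw [h1, map_sum]
    refine Submodule.sum_mem _ fun i _ => ?_
    rw [psi_rat]
    exact Submodule.smul_mem _ _ (Submodule.subset_span ⟨i, rfl⟩)
  have hmem : ∀ (b : ℕ) (v : Fin m → K), v ∈ (bx K m b).filter (· ∈ V) ↔
      v ∈ lam V ∧ ‖psi K m v‖ ≤ (b : ℝ) := by
    intro b v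
    rw [mem_filter, mem_bx, psi_norm v b (Nat.cast_nonneg b)]
    constructor
    · rintro ⟨h1, h2⟩
      exact ⟨⟨h2, fun a => (h1 a).1⟩, fun a => (h1 a).2⟩
    · rintro ⟨⟨h1, h2⟩, h3⟩
      exact ⟨fun a => ⟨h2 a, h3 a⟩, h1⟩
  exact doubling (psi K m) (psi_inj m) (lam V) E hEf (fun v hv => hmemE v hv.1) (C : ℝ) (ρ : ℝ)
    (by exact_mod_cast hρ) (by exact_mod_cast hρC) _ _ (hmem C) (hmem ρ)

end Q144.MM
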